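import Mathlib

set_option autoImplicit false

open MvPolynomial

namespace Pool.Agent.Results.MP_fe322e_ag.DefiningMinorsNotGroebner

universe w

/-- The southwest rank function `r^v_{pq} = #{j ≤ q : v(j) ≥ p}` (rows and columns numbered by
`Fin n`, from top to bottom and from left to right). -/
def swRank {n : ℕ} (v : Equiv.Perm (Fin n)) (p q : Fin n) : ℕ :=
  (Finset.univ.filter fun j : Fin n => j ≤ q ∧ p ≤ v j).card

/-- One step up in Bruhat order: `b = a ∘ (i j)` with `i < j` and `a(i) < a(j)`. -/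
def BruhatStep {n : ℕ} (a b : Equiv.Perm (Fin n)) : Prop :=
  ∃ i j : Fin n, i < j ∧ a i < a j ∧ b = a * Equiv.swap i j

/-- Bruhat order on `S_n`: the reflexive transitive closure of the steps. -/
def BruhatLE {n : ℕ} (u v : Equiv.Perm (Fin n)) : Prop :=
  Relation.ReflTransGen BruhatStep u v

/-- `(i, j)` is the position of an indeterminate of `Z^(u)`: `i > u(j)` and `j < u⁻¹(i)`. -/
def IsVar {n : ℕ} (u : Equiv.Perm (Fin n)) (ij : Fin n × Fin n) : Prop :=
  u ij.2 < ij.1 ∧ ij.2 < u.symm ij.1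

instance {n : ℕ} (u : Equiv.Perm (Fin n)) (ij : Fin n × Fin n) : Decidable (IsVar u ij) := by
  unfold IsVar; infer_instance

/-- The indeterminates of `Z^(u)`. -/
abbrev Vars {n : ℕ} (u : Equiv.Perm (Fin n)) : Type := {ij : Fin n × Fin n // IsVar u ij}

/-- The matrix `Z^(u)`: entry `1` at `(u(j), j)`, an indeterminate `x_{ij}` at `(i, j)` whenever
`i > u(j)` and `j < u⁻¹(i)`, and `0` elsewhere. -/
noncomputable def Z {n : ℕ} (k : Type w) [Field k] (u : Equiv.Perm (Fin n)) :
    Matrix (Fin n) (Fin n) (MvPolynomial (Vars u) k) :=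
  Matrix.of fun i j =>
    if i = u j then 1 else if h : IsVar u (i, j) then X ⟨(i, j), h⟩ else 0

/-- The defining determinants of `I_{u,v}`: for all `p, q`, all minors of size `r^v_{pq} + 1` of
the submatrix of `Z^(u)` in rows `≥ p` and columns `≤ q`. -/
def definingDets {n : ℕ} (k : Type w) [Field k] (u v : Equiv.Perm (Fin n)) :
    Set (MvPolynomial (Vars u) k) :=
  {g | ∃ (p q : Fin n) (R C : Fin (swRank v p q + 1) ↪o Fin n),
      (∀ a, p ≤ R a) ∧ (∀ b, C b ≤ q) ∧ g = ((Z k u).submatrix R C).det}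

/-- The Kazhdan-Lusztig ideal `I_{u,v}`. -/
noncomputable def klIdeal {n : ℕ} (k : Type w) [Field k] (u v : Equiv.Perm (Fin n)) :
    Ideal (MvPolynomial (Vars u) k) :=
  Ideal.span (definingDets k u v)

/-- A term order on `k[x_{ij} : 1 ≤ i, j ≤ n]` is graded if it refines total degree. -/
def Graded {n : ℕ} (m : MonomialOrder (Fin n × Fin n)) : Prop :=
  ∀ a b : (Fin n × Fin n) →₀ ℕ, a.degree < b.degree → m.toSyn a < m.toSyn b

/-- A term order is diagonal if for all rows `i_1 < ... < i_s` and columns `j_1 < ... < j_s` the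
leading term of `det (x_{i_a j_b})` is `x_{i_1 j_1} ... x_{i_s j_s}`. -/
def Diagonal {n : ℕ} (k : Type w) [Field k] (m : MonomialOrder (Fin n × Fin n)) : Prop :=
  ∀ (s : ℕ) (R C : Fin s ↪o Fin n),
    m.leadingTerm (Matrix.det (Matrix.of fun a b =>
      (X (R a, C b) : MvPolynomial (Fin n × Fin n) k))) = ∏ a, X (R a, C a)

/-- The leading exponent of `f ∈ k[x^(u)]` for the restriction to `k[x^(u)]` of a term order on
`k[x_{ij} : 1 ≤ i, j ≤ n]`. -/
noncomputable def lexp {n : ℕ} {k : Type w} [Field k] {u : Equiv.Perm (Fin n)}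
    (m : MonomialOrder (Fin n × Fin n)) (f : MvPolynomial (Vars u) k) : (Fin n × Fin n) →₀ ℕ :=
  m.degree (rename Subtype.val f)

/-- The set `G` (a subset of the ideal `I` in all uses below) is a Groebner basis of `I`: the
leading monomial of each nonzero element of `I` is divisible by the leading monomial of a nonzero
element of `G`. -/
def IsGroebner {n : ℕ} {k : Type w} [Field k] {u : Equiv.Perm (Fin n)}
    (m : MonomialOrder (Fin n × Fin n)) (G : Set (MvPolynomial (Vars u) k))
    (I : Ideal (MvPolynomial (Vars u) k)) : Prop :=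
  ∀ f ∈ I, f ≠ 0 → ∃ g ∈ G, g ≠ 0 ∧ lexp m g ≤ lexp m f

/-- The permutation `u = 153426` of `1, ..., 6` (here its values are lowered by one). -/
def u₀ : Equiv.Perm (Fin 6) where
  toFun := ![0, 4, 2, 3, 1, 5]
  invFun := ![0, 4, 2, 3, 1, 5]
  left_inv := by decide
  right_inv := by decide

/-- The permutation `v = 653412` of `1, ..., 6` (here its values are lowered by one). -/
def v₀ : Equiv.Perm (Fin 6) where
  toFun := ![5, 4, 2, 3, 0, 1]
  invFun := ![4, 5, 2, 3, 1, 0]
  left_inv := by decide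
  right_inv := by decide

theorem bruhat : BruhatLE u₀ v₀ := by
  refine Relation.ReflTransGen.trans
    (Relation.ReflTransGen.single (b := u₀ * Equiv.swap 0 4) ⟨0, 4, by decide, by decide, rfl⟩)
    (Relation.ReflTransGen.single ⟨0, 5, by decide, by decide, by decide⟩)

/-- The only pairs `(p, q)` for which there are defining determinants. -/
theorem pq_cases (p q : Fin 6) (h1 : swRank v₀ p q + 1 ≤ 6 - (p : ℕ))
    (h2 : swRank v₀ p q + 1 ≤ (q : ℕ) + 1) : (p = 3 ∧ q = 2) ∨ (p = 1 ∧ q = 4) := by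
  revert h1 h2
  revert p q
  decide

theorem rank32 : swRank v₀ 3 2 = 2 := by decide

theorem rank14 : swRank v₀ 1 4 = 4 := by decide

section Explicit

variable (k : Type w) [Field k]

/-- the indeterminates of `Z^(u)` for `u = u₀` (numbered from `1` as in the problem) -/
noncomputable def x21 : MvPolynomial (Vars u₀) k := X ⟨(1, 0), by decide⟩
noncomputable def x31 : MvPolynomial (Vars u₀) k := X ⟨(2, 0), by decide⟩
noncomputable def x41 : MvPolynomial (Vars u₀) k := X ⟨(3, 0), by decide⟩
noncomputable def x43 : MvPolynomial (Vars u₀) k := X ⟨(3, 2), by decide⟩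
noncomputable def x51 : MvPolynomial (Vars u₀) k := X ⟨(4, 0), by decide⟩
noncomputable def x61 : MvPolynomial (Vars u₀) k := X ⟨(5, 0), by decide⟩
noncomputable def x62 : MvPolynomial (Vars u₀) k := X ⟨(5, 1), by decide⟩
noncomputable def x63 : MvPolynomial (Vars u₀) k := X ⟨(5, 2), by decide⟩
noncomputable def x64 : MvPolynomial (Vars u₀) k := X ⟨(5, 3), by decide⟩
noncomputable def x65 : MvPolynomial (Vars u₀) k := X ⟨(5, 4), by decide⟩

theorem Z_eq : Z k u₀ = Matrix.of
    ![![1, 0, 0, 0, 0, 0],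
      ![x21 k, 0, 0, 0, 1, 0],
      ![x31 k, 0, 1, 0, 0, 0],
      ![x41 k, 0, x43 k, 1, 0, 0],
      ![x51 k, 1, 0, 0, 0, 0],
      ![x61 k, x62 k, x63 k, x64 k, x65 k, 1]] := by
  ext1 i j
  fin_cases i <;> fin_cases j <;> rfl

/-- the `3 x 3` defining determinant -/
noncomputable def F : MvPolynomial (Vars u₀) k :=
  x43 k * x51 k * x62 k + (x41 k * x63 k - x43 k * x61 k)

/-- the `5 x 5` defining determinant -/
noncomputable def G : MvPolynomial (Vars u₀) k :=
  x43 k * x31 k * x64 k + (x61 k - x65 k * x21 k - x64 k * x41 k - x62 k * x51 k - x63 k * x31 k)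

theorem det3 (R C : Fin 3 ↪o Fin 6) (hR : ∀ a, 3 ≤ R a) (hC : ∀ b, C b ≤ 2) :
    ((Z k u₀).submatrix R C).det = F k := by
  have r0 := hR 0
  have r1 : R 0 < R 1 := R.strictMono (by decide)
  have r2 : R 1 < R 2 := R.strictMono (by decide)
  have c1 : C 0 < C 1 := C.strictMono (by decide)
  have c2 : C 1 < C 2 := C.strictMono (by decide)
  have c3 := hC 2
  have e0 : R 0 = 3 := by omega
  have e1 : R 1 = 4 := by omega
  have e2 : R 2 = 5 := by omega
  have f0 : C 0 = 0 := by omega
  have f1 : C 1 = 1 := by omega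
  have f2 : C 2 = 2 := by omega
  rw [Matrix.det_fin_three]
  simp only [Matrix.submatrix_apply, e0, e1, e2, f0, f1, f2, Z_eq]
  simp [F]
  ring

theorem det5 (R C : Fin 5 ↪o Fin 6) (hR : ∀ a, 1 ≤ R a) (hC : ∀ b, C b ≤ 4) :
    ((Z k u₀).submatrix R C).det = -G k := by
  have r0 := hR 0
  have r1 : R 0 < R 1 := R.strictMono (by decide)
  have r2 : R 1 < R 2 := R.strictMono (by decide)
  have r3 : R 2 < R 3 := R.strictMono (by decide)
  have r4 : R 3 < R 4 := R.strictMono (by decide)
  have c1 : C 0 < C 1 := C.strictMono (by decide)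
  have c2 : C 1 < C 2 := C.strictMono (by decide)
  have c3 : C 2 < C 3 := C.strictMono (by decide)
  have c4 : C 3 < C 4 := C.strictMono (by decide)
  have c5 := hC 4
  have e0 : R 0 = 1 := by omega
  have e1 : R 1 = 2 := by omega
  have e2 : R 2 = 3 := by omega
  have e3 : R 3 = 4 := by omega
  have e4 : R 4 = 5 := by omega
  have f0 : C 0 = 0 := by omega
  have f1 : C 1 = 1 := by omega
  have f2 : C 2 = 2 := by omega
  have f3 : C 3 = 3 := by omega
  have f4 : C 4 = 4 := by omega
  have hM : (Z k u₀).submatrix R C = Matrix.of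
    ![![x21 k, 0, 0, 0, 1],
      ![x31 k, 0, 1, 0, 0],
      ![x41 k, 0, x43 k, 1, 0],
      ![x51 k, 1, 0, 0, 0],
      ![x61 k, x62 k, x63 k, x64 k, x65 k]] := by
    ext1 i j
    fin_cases i <;> fin_cases j <;>
      simp [Matrix.submatrix_apply, e0, e1, e2, e3, e4, f0, f1, f2, f3, f4, Z_eq]
  rw [hM]
  simp [Matrix.det_succ_row_zero, Fin.sum_univ_succ, G, Fin.succAbove, Matrix.submatrix]
  ring

/-- Every defining determinant of `I_{u,v}` is `F` or `-G`. -/
theorem mem_definingDets {g : MvPolynomial (Vars u₀) k} (hg : g ∈ definingDets k u₀ v₀) :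
    g = F k ∨ g = -G k := by
  obtain ⟨p, q, R, C, hR, hC, rfl⟩ := hg
  have h1 : swRank v₀ p q + 1 ≤ 6 - (p : ℕ) := by
    have hinj : Function.Injective (fun a => (⟨(R a : ℕ) - p, by
        have := hR a; have := (R a).2; omega⟩ : Fin (6 - (p : ℕ)))) := by
      intro a b hab
      have h2 := congrArg Fin.val hab
      have ha := hR a
      have hb := hR b
      simp only at h2
      apply R.injective
      apply Fin.ext
      have ha' : (p : ℕ) ≤ R a := ha
      have hb' : (p : ℕ) ≤ R b := hb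
      omega
    simpa using Fintype.card_le_of_injective _ hinj
  have h2 : swRank v₀ p q + 1 ≤ (q : ℕ) + 1 := by
    have hinj : Function.Injective (fun a => (⟨(C a : ℕ), by
        have : (C a : ℕ) ≤ q := hC a; omega⟩ : Fin ((q : ℕ) + 1))) := by
      intro a b hab
      have h2 := congrArg Fin.val hab
      simp only at h2
      exact C.injective (Fin.ext h2)
    simpa using Fintype.card_le_of_injective _ hinj
  rcases pq_cases p q h1 h2 with ⟨rfl, rfl⟩ | ⟨rfl, rfl⟩
  · left
    have hr := rank32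
    generalize swRank v₀ 3 2 = r at R C hR hC hr
    subst hr
    exact det3 k R C hR hC
  · right
    have hr := rank14
    generalize swRank v₀ 1 4 = r at R C hR hC hr
    subst hr
    exact det5 k R C hR hC

theorem F_mem : F k ∈ definingDets k u₀ v₀ := by
  have hr := rank32
  refine ⟨3, 2, ?_⟩
  generalize swRank v₀ 3 2 = r at hr
  subst hr
  refine ⟨OrderEmbedding.ofStrictMono ![3, 4, 5] ?_, OrderEmbedding.ofStrictMono ![0, 1, 2] ?_,
    ?_, ?_, ?_⟩
  · decide
  · decide
  · decide
  · decide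
  · symm
    apply det3
    · decide
    · decide

theorem G_mem : -G k ∈ definingDets k u₀ v₀ := by
  have hr := rank14
  refine ⟨1, 4, ?_⟩
  generalize swRank v₀ 1 4 = r at hr
  subst hr
  refine ⟨OrderEmbedding.ofStrictMono ![1, 2, 3, 4, 5] ?_,
    OrderEmbedding.ofStrictMono ![0, 1, 2, 3, 4] ?_, ?_, ?_, ?_⟩
  · decide
  · decide
  · decide
  · decide
  · symm
    apply det5
    · decide
    · decide

/-- the element of `I_{u,v}` free of `x43` -/
noncomputable def H : MvPolynomial (Vars u₀) k :=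
  (x51 k * x62 k - x61 k) *
      (x61 k - x65 k * x21 k - x64 k * x41 k - x62 k * x51 k - x63 k * x31 k) -
    x31 k * x64 k * (x41 k * x63 k)

theorem H_eq : H k = (x61 k - x51 k * x62 k) * (-G k) - (x31 k * x64 k) * F k := by
  simp only [H, F, G]
  ring

theorem H_mem : H k ∈ klIdeal k u₀ v₀ := by
  rw [H_eq]
  exact Ideal.sub_mem _ (Ideal.mul_mem_left _ _ (Ideal.subset_span (G_mem k)))
    (Ideal.mul_mem_left _ _ (Ideal.subset_span (F_mem k)))

theorem H_ne_zero : H k ≠ 0 := by
  intro h
  have h1 := congrArg (MvPolynomial.eval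
    (fun t : Vars u₀ => if t.1 = (5, 0) then (1 : k) else 0)) h
  simp [H, x21, x31, x41, x51, x61, x62, x63, x64, x65] at h1

theorem H_supported : rename Subtype.val (H k) ∈
    MvPolynomial.supported k ({((3 : Fin 6), (2 : Fin 6))}ᶜ : Set (Fin 6 × Fin 6)) := by
  have hX : ∀ t : Fin 6 × Fin 6, t ≠ (3, 2) → (X t : MvPolynomial (Fin 6 × Fin 6) k) ∈
      MvPolynomial.supported k ({((3 : Fin 6), (2 : Fin 6))}ᶜ : Set (Fin 6 × Fin 6)) := by
    intro t ht
    rw [MvPolynomial.X_mem_supported]
    simpa using ht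
  simp only [H, map_sub, map_mul, x21, x31, x41, x51, x61, x62, x63, x64, x65, rename_X]
  have h21 := hX (1, 0) (by decide)
  have h31 := hX (2, 0) (by decide)
  have h41 := hX (3, 0) (by decide)
  have h51 := hX (4, 0) (by decide)
  have h61 := hX (5, 0) (by decide)
  have h62 := hX (5, 1) (by decide)
  have h63 := hX (5, 2) (by decide)
  have h64 := hX (5, 3) (by decide)
  have h65 := hX (5, 4) (by decide)
  repeat' first
    | assumption
    | apply Subalgebra.sub_mem
    | apply Subalgebra.mul_mem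

theorem lexp_H (m : MonomialOrder (Fin 6 × Fin 6)) : lexp m (H k) (3, 2) = 0 := by
  by_contra hne
  have hH : rename Subtype.val (H k) ≠ 0 := by
    intro h0
    exact H_ne_zero k (rename_injective _ Subtype.val_injective (by rw [h0, map_zero]))
  have hsup := m.degree_mem_support hH
  have hv : ((3 : Fin 6), (2 : Fin 6)) ∈ (rename Subtype.val (H k)).vars := by
    rw [MvPolynomial.mem_vars_iff_mem_support]
    exact ⟨_, hsup, by rw [Finsupp.mem_support_iff]; exact hne⟩
  have := (MvPolynomial.mem_supported.mp (H_supported k)) hv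
  simp at this

variable {k}

theorem degree_lt_of_totalDegree {m : MonomialOrder (Fin 6 × Fin 6)} (hm : Graded m)
    {r : MvPolynomial (Fin 6 × Fin 6) k} {d : (Fin 6 × Fin 6) →₀ ℕ}
    (h : r.totalDegree < d.degree) : m.toSyn (m.degree r) < m.toSyn d := by
  apply hm
  by_cases hr : r = 0
  · subst hr
    simpa using lt_of_le_of_lt (Nat.zero_le _) h
  · refine lt_of_le_of_lt ?_ h
    have := MvPolynomial.le_totalDegree (m.degree_mem_support hr)
    rwa [Finsupp.degree_apply]

theorem lexp_cubic {m : MonomialOrder (Fin 6 × Fin 6)} (hm : Graded m) (a b c : Fin 6 × Fin 6)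
    (r : MvPolynomial (Fin 6 × Fin 6) k) (hr : r.totalDegree ≤ 2) :
    m.degree (X a * X b * X c + r) =
      Finsupp.single a 1 + Finsupp.single b 1 + Finsupp.single c 1 := by
  have h1 : m.degree (X a * X b * X c : MvPolynomial (Fin 6 × Fin 6) k) =
      Finsupp.single a 1 + Finsupp.single b 1 + Finsupp.single c 1 := by
    rw [m.degree_mul (mul_ne_zero (X_ne_zero _) (X_ne_zero _)) (X_ne_zero _),
      m.degree_mul (X_ne_zero _) (X_ne_zero _), m.degree_X, m.degree_X, m.degree_X]
  rw [← h1]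
  apply m.degree_add_of_lt
  rw [h1]
  apply degree_lt_of_totalDegree hm
  refine lt_of_le_of_lt hr ?_
  simp [Finsupp.degree_single]

theorem totalDegree_two (a b : Fin 6 × Fin 6) :
    (X a * X b : MvPolynomial (Fin 6 × Fin 6) k).totalDegree ≤ 2 := by
  refine (totalDegree_mul _ _).trans ?_
  rw [totalDegree_X, totalDegree_X]

theorem totalDegree_one' (a : Fin 6 × Fin 6) :
    (X a : MvPolynomial (Fin 6 × Fin 6) k).totalDegree ≤ 2 := by
  rw [totalDegree_X]
  exact one_le_two

theorem totalDegree_sub_two {f g : MvPolynomial (Fin 6 × Fin 6) k} (hf : f.totalDegree ≤ 2)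
    (hg : g.totalDegree ≤ 2) : (f - g).totalDegree ≤ 2 :=
  (totalDegree_sub f g).trans (max_le hf hg)

theorem lexp_F {m : MonomialOrder (Fin 6 × Fin 6)} (hm : Graded m) :
    lexp m (F k) = Finsupp.single (3, 2) 1 + Finsupp.single (4, 0) 1 + Finsupp.single (5, 1) 1 := by
  unfold lexp
  simp only [F, map_add, map_sub, map_mul, x43, x51, x62, x41, x63, x61, rename_X]
  apply lexp_cubic hm
  exact totalDegree_sub_two (totalDegree_two _ _) (totalDegree_two _ _)

theorem lexp_G {m : MonomialOrder (Fin 6 × Fin 6)} (hm : Graded m) :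
    lexp m (-G k) = Finsupp.single (3, 2) 1 + Finsupp.single (2, 0) 1 +
      Finsupp.single (5, 3) 1 := by
  unfold lexp
  rw [map_neg, m.degree_neg]
  simp only [G, map_add, map_sub, map_mul, x43, x31, x64, x61, x65, x21, x41, x62, x51, x63,
    rename_X]
  apply lexp_cubic hm
  refine totalDegree_sub_two (totalDegree_sub_two (totalDegree_sub_two (totalDegree_sub_two
    (totalDegree_one' _) ?_) ?_) ?_) ?_ <;> exact totalDegree_two _ _

/-- For every field and every graded term order, diagonal or not, the defining determinants of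
`I_{u,v}`, `u = 153426`, `v = 653412`, are not a Groebner basis. -/
theorem not_groebner (m : MonomialOrder (Fin 6 × Fin 6)) (hm : Graded m) :
    ¬ IsGroebner m (definingDets k u₀ v₀) (klIdeal k u₀ v₀) := by
  intro h
  obtain ⟨g, hg, -, hle⟩ := h (H k) (H_mem k) (H_ne_zero k)
  have h2 := hle (3, 2)
  rw [lexp_H] at h2
  rcases mem_definingDets k hg with rfl | rfl
  · rw [lexp_F hm] at h2
    simp at h2
  · rw [lexp_G hm] at h2
    simp at h2

end Explicit

section Existence

theorem degLex_lt' {σ : Type} [LinearOrder σ] [WellFoundedGT σ] (a b : σ →₀ ℕ) :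
    (MonomialOrder.degLex (σ := σ)).toSyn a < (MonomialOrder.degLex (σ := σ)).toSyn b ↔
      a.degree < b.degree ∨
      (a.degree = b.degree ∧ ∃ t, (∀ d, d < t → a d = b d) ∧ a t < b t) := by
  rw [MonomialOrder.degLex_lt_iff, Finsupp.DegLex.lt_iff]
  rfl

/-- positions ordered row by row: `(1,1), (1,2), ..., (2,1), ...` -/
@[reducible] noncomputable def rowOrder (n : ℕ) : LinearOrder (Fin n × Fin n) :=
  inferInstanceAs (LinearOrder (Fin n ×ₗ Fin n))

theorem rowOrder_lt {n : ℕ} (a b : Fin n × Fin n) :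
    (rowOrder n).lt a b ↔ a.1 < b.1 ∨ a.1 = b.1 ∧ a.2 < b.2 :=
  Prod.Lex.toLex_lt_toLex (x := a) (y := b)

/-- the graded lexicographic term order with `x_{11} > x_{12} > ... > x_{21} > ...` -/
noncomputable def grlex (n : ℕ) : MonomialOrder (Fin n × Fin n) :=
  @MonomialOrder.degLex (Fin n × Fin n) (rowOrder n)
    (@Finite.to_wellFoundedGT _ _ (rowOrder n).toPreorder)

theorem grlex_lt {n : ℕ} (a b : (Fin n × Fin n) →₀ ℕ) :
    (grlex n).toSyn a < (grlex n).toSyn b ↔ a.degree < b.degree ∨
      (a.degree = b.degree ∧ ∃ t, (∀ d, (rowOrder n).lt d t → a d = b d) ∧ a t < b t) :=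
  @degLex_lt' _ (rowOrder n) (@Finite.to_wellFoundedGT _ _ (rowOrder n).toPreorder) a b

theorem grlex_graded (n : ℕ) : Graded (grlex n) := by
  intro a b h
  rw [grlex_lt]
  exact Or.inl h

theorem exp_lt {n s : ℕ} (R C : Fin s ↪o Fin n) (σ : Equiv.Perm (Fin s)) (hσ : σ ≠ 1) :
    (grlex n).toSyn (∑ a, Finsupp.single (R (σ a), C a) 1) <
      (grlex n).toSyn (∑ a, Finsupp.single (R a, C a) 1) := by
  classical
  rw [grlex_lt]
  right
  refine ⟨by simp [map_sum, Finsupp.degree_single], ?_⟩
  have hre : (∑ a, Finsupp.single (R (σ a), C a) 1 : (Fin n × Fin n) →₀ ℕ) =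
      ∑ b, Finsupp.single (R b, C (σ⁻¹ b)) 1 := by
    rw [← Equiv.sum_comp σ (fun b => (Finsupp.single (R b, C (σ⁻¹ b)) 1 :
      (Fin n × Fin n) →₀ ℕ))]
    simp
  rw [hre]
  have hex : ∃ b, σ⁻¹ b ≠ b := by
    by_contra hcon
    push Not at hcon
    apply hσ
    rw [← inv_eq_one]
    exact Equiv.ext hcon
  obtain ⟨b₀, hb₀, hmin⟩ : ∃ b₀, σ⁻¹ b₀ ≠ b₀ ∧ ∀ b < b₀, σ⁻¹ b = b := by
    obtain ⟨b₀, hb₀, hm⟩ := WellFounded.has_min (wellFounded_lt (α := Fin s))
      {b | σ⁻¹ b ≠ b} hex
    exact ⟨b₀, hb₀, fun b hb => by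
      by_contra hne
      exact hm b hne hb⟩
  have hgt : b₀ < σ⁻¹ b₀ := by
    rcases lt_trichotomy (σ⁻¹ b₀) b₀ with h | h | h
    · exact absurd (σ⁻¹.injective (hmin _ h)) hb₀
    · exact absurd h hb₀
    · exact h
  refine ⟨(R b₀, C b₀), ?_, ?_⟩
  · rintro ⟨r, c⟩ hd
    rw [rowOrder_lt] at hd
    simp only at hd
    rw [Finsupp.finsetSum_apply, Finsupp.finsetSum_apply]
    apply Finset.sum_congr rfl
    intro b _
    rw [Finsupp.single_apply, Finsupp.single_apply]
    by_cases hr : R b = r
    · rcases hd with hd | ⟨hd, hc⟩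
      · have : b < b₀ := by
          rw [← R.lt_iff_lt, hr]
          exact hd
        rw [hmin b this]
      · have hb : b = b₀ := R.injective (hr.trans hd)
        subst hb
        have h1 : C b ≠ c := ne_of_gt hc
        have h2 : C (σ⁻¹ b) ≠ c := ne_of_gt (lt_trans hc (C.strictMono hgt))
        rw [if_neg (fun h => h2 (Prod.mk.inj h).2), if_neg (fun h => h1 (Prod.mk.inj h).2)]
    · rw [if_neg (fun h => hr (Prod.mk.inj h).1), if_neg (fun h => hr (Prod.mk.inj h).1)]
  · rw [Finsupp.finsetSum_apply, Finsupp.finsetSum_apply]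
    have h0 : ∑ b, (Finsupp.single (R b, C (σ⁻¹ b)) 1 : (Fin n × Fin n) →₀ ℕ) (R b₀, C b₀) = 0 := by
      apply Finset.sum_eq_zero
      intro b _
      rw [Finsupp.single_apply, if_neg]
      intro h
      rw [Prod.mk.injEq] at h
      have hb : b = b₀ := R.injective h.1
      subst hb
      exact hb₀ (C.injective h.2)
    rw [h0]
    apply lt_of_lt_of_le Nat.zero_lt_one
    have := Finset.single_le_sum (f := fun b =>
      (Finsupp.single (R b, C b) 1 : (Fin n × Fin n) →₀ ℕ) (R b₀, C b₀))
      (fun _ _ => Nat.zero_le _) (Finset.mem_univ b₀)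
    simpa using this

theorem prod_X_eq {n s : ℕ} (k : Type w) [Field k] (f : Fin s → Fin n × Fin n) :
    (∏ a, X (f a) : MvPolynomial (Fin n × Fin n) k) =
      monomial (∑ a, Finsupp.single (f a) 1) 1 := by
  rw [MvPolynomial.monomial_sum_one]
  rfl

theorem grlex_diagonal (n : ℕ) (k : Type w) [Field k] : Diagonal k (grlex n) := by
  classical
  intro s R C
  set m := grlex n with hm
  have hdet : (Matrix.det (Matrix.of fun a b =>
      (X (R a, C b) : MvPolynomial (Fin n × Fin n) k))) =
      (∏ a, X (R a, C a)) + ∑ σ ∈ Finset.univ.erase (1 : Equiv.Perm (Fin s)),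
        Equiv.Perm.sign σ • ∏ a, X (R (σ a), C a) := by
    rw [Matrix.det_apply, ← Finset.add_sum_erase _ _ (Finset.mem_univ (1 : Equiv.Perm (Fin s)))]
    simp
  set D : MvPolynomial (Fin n × Fin n) k := ∏ a, X (R a, C a) with hD
  set E : MvPolynomial (Fin n × Fin n) k :=
    ∑ σ ∈ Finset.univ.erase (1 : Equiv.Perm (Fin s)),
        Equiv.Perm.sign σ • ∏ a, X (R (σ a), C a) with hE
  rw [hdet]
  have hDm : D = monomial (∑ a, Finsupp.single (R a, C a) 1) 1 := prod_X_eq k _
  have hDdeg : m.degree D = ∑ a, Finsupp.single (R a, C a) 1 := by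
    rw [hDm, m.degree_monomial, if_neg one_ne_zero]
  have hDlead : m.leadingTerm D = D := by
    rw [hDm, m.leadingTerm_monomial]
  by_cases hE0 : E = 0
  · rw [hE0, add_zero, hDlead]
  · have hsup := m.degree_mem_support hE0
    have hlt : m.toSyn (m.degree E) < m.toSyn (m.degree D) := by
      rw [hDdeg]
      have h1 := Finset.mem_of_subset (MvPolynomial.support_sum) hsup
      rw [Finset.mem_biUnion] at h1
      obtain ⟨σ, hσ, h2⟩ := h1
      have h3 : (Equiv.Perm.sign σ • ∏ a, X (R (σ a), C a) : MvPolynomial (Fin n × Fin n) k) =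
          monomial (∑ a, Finsupp.single (R (σ a), C a) 1) ((Equiv.Perm.sign σ : ℤ) : k) := by
        rw [prod_X_eq k (fun a => (R (σ a), C a)), Units.smul_def, MvPolynomial.smul_monomial]
        simp
      rw [h3] at h2
      have h4 := Finset.mem_of_subset (MvPolynomial.support_monomial_subset) h2
      rw [Finset.mem_singleton] at h4
      rw [h4]
      exact exp_lt R C σ (Finset.ne_of_mem_erase hσ)
    rw [MonomialOrder.leadingTerm, m.degree_add_of_lt hlt, m.leadingCoeff_add_of_lt hlt,
      ← MonomialOrder.leadingTerm, hDlead]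

end Existence

/-- Main result: for `u = 153426` and `v = 653412` in `S_6` one has `u ≤ v` in Bruhat order, and for
every field `k`: graded diagonal term orders exist, and for EVERY graded term order (diagonal or
not) the defining determinants of the Kazhdan-Lusztig ideal `I_{u,v}` do not form a Groebner basis
of `I_{u,v}`. -/
theorem result :
    BruhatLE u₀ v₀ ∧ ∀ (k : Type w) [Field k],
      (∃ m : MonomialOrder.{0, 0} (Fin 6 × Fin 6), Graded m ∧ Diagonal k m) ∧
      ∀ m : MonomialOrder.{0, 0} (Fin 6 × Fin 6), Graded m →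
        ¬ IsGroebner m (definingDets k u₀ v₀) (klIdeal k u₀ v₀) :=
  ⟨bruhat, fun k _ => ⟨⟨grlex 6, grlex_graded 6, grlex_diagonal 6 k⟩,
    fun m hm => not_groebner m hm⟩⟩

end Pool.Agent.Results.MP_fe322e_ag.DefiningMinorsNotGroebner
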